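import Pool.Agent.H37.CNX.Stmts
import Pool.Agent.H73.CNP.DCO

/-!
# Row XDC: the conductor is `(D0 + Q - 1) / Q`
-/

set_option autoImplicit false

namespace Pool.CND

open Finset

section aux

variable {k L G : Type} [Field k] [Field L] [Algebra k L] [Group G]

/-- a product of `x - v` -/
theorem xdc_prod (P : Place k L) {x : L} (hx0 : x ≠ 0) (hx : P.ord x < 0) (s : Finset k) :
    (∏ v ∈ s, (x - algebraMap k L v)) ≠ 0 ∧
      P.ord (∏ v ∈ s, (x - algebraMap k L v)) = s.card * P.ord x := by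
  classical
  induction s using Finset.induction_on with
  | empty => simp [P.ord_one]
  | insert v s hv ih =>
    have h1 : x - algebraMap k L v ≠ 0 ∧ P.ord (x - algebraMap k L v) = P.ord x := by
      rw [sub_eq_add_neg]
      refine P.ord_add_of_lt hx0 (P.ge_neg (P.ge_mono (P.ge_const v) ?_))
      linarith
    rw [prod_insert hv, card_insert_of_notMem hv]
    refine ⟨mul_ne_zero h1.1 ih.1, ?_⟩
    rw [P.ord_mul _ _ h1.1 ih.1, h1.2, ih.2]
    push_cast
    ring

omit [Group G] in
theorem xdc_aeval [Finite G] (P : Place k L) {x : L} (hx0 : x ≠ 0) (hx : P.ord x < 0) (ι : G → k) :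
    Polynomial.aeval x (Apol ι) ≠ 0 ∧
      P.ord (Polynomial.aeval x (Apol ι)) = Nat.card (Set.range ι) * P.ord x := by
  have h1 : Polynomial.aeval x (Apol ι) =
      ∏ v ∈ (Set.finite_range ι).toFinset, (x - algebraMap k L v) := by
    unfold Apol
    rw [map_prod]
    refine prod_congr rfl fun v _ => ?_
    simp
  have h2 := xdc_prod P hx0 hx (Set.finite_range ι).toFinset
  rw [h1]
  refine ⟨h2.1, ?_⟩
  rw [h2.2, ← Set.ncard_eq_toFinset_card _ (Set.finite_range ι)]
  rfl

/-- the sum over `G`, if `b = 1` outside `M` -/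
theorem xdc_sm [Fintype G] {b : G → ℤ} (M : Subgroup G) (h : ∀ g : G, g ∉ M → b g = 1) :
    sm b {g | g ∈ (⊤ : Subgroup G) ∧ g ≠ 1} =
      sm b {g | g ∈ M ∧ g ≠ 1} + ((Nat.card G : ℤ) - Nat.card M) := by
  classical
  have h1 : (univ : Finset G).filter (fun g => g ∈ {g | g ∈ (⊤ : Subgroup G) ∧ g ≠ 1}) =
      (univ : Finset G).filter (fun g => g ∈ {g | g ∈ M ∧ g ≠ 1}) ∪
        (univ : Finset G).filter (fun g => g ∉ M) := by
    ext g
    simp only [mem_filter, mem_univ, true_and, mem_union, Set.mem_ofPred_eq, Subgroup.mem_top]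
    by_cases hg : g ∈ M
    · simp [hg]
    · have : g ≠ 1 := fun h => hg (h ▸ M.one_mem)
      simp [hg, this]
  have h2 : Disjoint ((univ : Finset G).filter (fun g => g ∈ {g | g ∈ M ∧ g ≠ 1}))
      ((univ : Finset G).filter (fun g => g ∉ M)) := by
    rw [Finset.disjoint_left]
    intro g hg hg'
    simp only [mem_filter, mem_univ, true_and, Set.mem_ofPred_eq] at hg hg'
    exact hg' hg.1
  have h3 : ∑ g ∈ (univ : Finset G).filter (fun g => g ∉ M), b g =
      (((univ : Finset G).filter (fun g => g ∉ M)).card : ℤ) := by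
    rw [Finset.sum_congr rfl (fun g hg => h g (by simpa using hg))]
    simp
  have h4 : (((univ : Finset G).filter (fun g => g ∉ M)).card : ℤ) =
      (Nat.card G : ℤ) - Nat.card M := by
    have h5 : Nat.card M = ((univ : Finset G).filter (fun g => g ∈ M)).card := by
      rw [Nat.card_eq_fintype_card, Fintype.card_subtype]
    have h6 : ((univ : Finset G).filter (fun g => g ∈ M)).card +
        ((univ : Finset G).filter (fun g => g ∉ M)).card = (univ : Finset G).card :=
      Finset.card_filter_add_card_filter_not _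
    rw [h5, Nat.card_eq_fintype_card, ← Finset.card_univ, ← h6]
    push_cast
    ring
  unfold sm
  have e1 : ∑ g ∈ (univ : Finset G).filter (fun g => g ∈ {g | g ∈ (⊤ : Subgroup G) ∧ g ≠ 1}), b g =
      ∑ g ∈ (univ : Finset G).filter (fun g => g ∈ {g | g ∈ M ∧ g ≠ 1}), b g +
        ((Nat.card G : ℤ) - Nat.card M) := by
    rw [h1, Finset.sum_union h2, h3, h4]
  convert e1

end aux

theorem xdc_thm (hTRM : S_TRM) (hRMX : S_RMX) (hSLX : S_SLX) (_hTOT : S_TOT) (hTMO : S_TMO)
    (_hRAM : S_RAM) (hUMW : S_UMW) (hELH : S_ELH) (_hELG : S_ELG) (hHBX : S_HBX) (hCMB : S_CMB)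
    (hCNV : S_CNV) (_hXAP : S_XAP) : S_XDC := by
  classical
  intro p d k L G _ _ _ _ _ P ρ A ι x z D0 hp hchar hρ hEA hd hcard hnorm hpow hιcard hιmul hιker
    hx0 hxord hρx hfixA hfixG hzA hz1 hD0 hJ
  have := Fact.mk hp
  obtain ⟨_⟩ := nonempty_fintype G
  have hAx : ∀ a ∈ A, ρ a x = x := by
    intro a ha
    rw [hρx, (hιker a).2 ha, map_zero, add_zero]
  -- orders
  have hAp : IsPGroup p A := fun a => ⟨1, by
    rw [pow_one]; exact Subtype.ext (hEA.1 a a.2)⟩
  obtain ⟨n, hn⟩ := IsPGroup.iff_card.1 hAp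
  have hGn : Nat.card G = p ^ (d + n) := by rw [hcard, hn, pow_add]
  have hGp : IsPGroup p G := IsPGroup.of_card hGn
  -- total ramification
  obtain ⟨hAfix, hxA⟩ := hTRM p k L G P ρ A x hp hρ ⟨n, hn⟩ hx0 hxord hAx hfixA (by
    intro J hJA hne
    obtain ⟨K, hJK, hKA, hK⟩ := exists_hyper hp hn hJA hne
    obtain ⟨y, D, hD, -, hy0, hy, -, hord, -⟩ := hJ K hKA hK
    exact ⟨y, D, hD, hy0, fun j hj => hy j (hJK hj), hord⟩)
  -- all of `G` fixes `P`
  let FX : Subgroup G :=
    { carrier := {g | Fixes P (ρ g)}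
      mul_mem' := fun {a b} ha hb => by
        show Fixes P (ρ (a * b))
        rw [map_mul]
        exact Fixes.mul ha hb
      one_mem' := by
        show Fixes P (ρ 1)
        rw [map_one]
        exact Fixes.one
      inv_mem' := fun {a} ha => by
        show Fixes P (ρ a⁻¹)
        rw [map_inv]
        exact Fixes.inv ha }
  have hApos : 0 < Nat.card A := Nat.card_pos
  obtain ⟨ht0, htord⟩ := xdc_aeval P hx0 hxord ι
  have hGfix : ∀ g : G, Fixes P (ρ g) := by
    obtain ⟨w, hw0, hw, hword⟩ := hRMX k L G P ρ ⊤ FX (fun g => by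
      show Fixes P (ρ g) ↔ _
      simp)
    have hwadj := hfixG w (fun g => hw g (Subgroup.mem_top g))
    set t := Polynomial.aeval x (Apol ι) with ht
    have hadj : IntermediateField.adjoin k {t} ≤ IntermediateField.adjoin k {t⁻¹} := by
      rw [IntermediateField.adjoin_le_iff]
      rintro _ rfl
      have := (IntermediateField.adjoin k {t⁻¹}).inv_mem
        (IntermediateField.mem_adjoin_simple_self k t⁻¹)
      rwa [inv_inv] at this
    have hord : P.ord t⁻¹ = ((Nat.card G : ℕ) : ℤ) := by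
      rw [P.ord_inv ht0, htord, hxA, hcard, hιcard]
      push_cast
      ring
    have hdvd := (hSLX k L P t⁻¹ (Nat.card G) Nat.card_pos (inv_ne_zero ht0) hord w
      (hadj hwadj) hw0).1
    rw [hword] at hdvd
    have hdvd' : Nat.card G ∣ Nat.card FX := by exact_mod_cast hdvd
    have htop : FX = ⊤ := by
      apply Subgroup.eq_top_of_card_eq
      exact Nat.dvd_antisymm (Subgroup.card_subgroup_dvd_card FX) hdvd'
    intro g
    have : g ∈ FX := htop ▸ Subgroup.mem_top g
    exact this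
  -- ramification groups
  have hr0 : ∀ g : G, g ∈ ram P ρ 0 := by
    intro g
    refine ⟨hGfix g, fun u hu hu1 => ?_⟩
    have h1 : P.Ge (ρ g u - u) 1 := by
      refine P.ge_sub ((hGfix g).ge ?_) ?_
      · exact Or.inr hu1.ge
      · exact Or.inr hu1.ge
    rcases h1 with h1 | h1
    · exact Or.inl (sub_eq_zero.1 h1)
    · right
      push_cast
      linarith
  have hr1 : ∀ g : G, g ∈ ram P ρ 1 := by
    have key : ∀ (r : ℕ) (g : G), g ^ (p ^ r) = 1 → g ∈ ram P ρ 1 := by
      intro r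
      induction r with
      | zero =>
        intro g hg
        rw [pow_zero, pow_one] at hg
        rw [hg]
        refine ⟨hGfix 1, fun u _ _ => Or.inl ?_⟩
        rw [map_one, AlgEquiv.one_apply]
      | succ r ih =>
        intro g hg
        refine hTMO p k L G P ρ hp hchar g (hr0 g) (ih (g ^ p) ?_)
        rw [← pow_mul, ← pow_succ', hg]
    intro g
    obtain ⟨r, hr⟩ := hGp g
    exact key r g hr
  have hW1 : ((⊤ : Subgroup G) : Set G) = ram P ρ 1 := by
    ext g; simp [hr1 g]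
  have hW0 : ((⊤ : Subgroup G) : Set G) = ram P ρ 0 := by
    ext g; simp [hr0 g]
  set b : G → ℤ := fun g => P.b (ρ g) with hbdef
  have hUM : UM b ⊤ := hUMW k L G P ρ ⊤ hρ hW1
  have hUMA : UM b A := hUM.mono le_top
  -- `U(A) = D0`
  obtain ⟨lA, hlA⟩ := exists_isLst b A hzA hz1
  have hUA : U b A lA = (D0 : ℚ) := by
    obtain ⟨g, hg, hg1, hgl⟩ := hlA.mem
    obtain ⟨N, hNA, hgN, hzN, hN⟩ := hELH p G A hp hEA g hg z hzA hg1 hz1
    obtain ⟨y, D, hpD, hD, hy0, hy, hyc, hord, hDD⟩ := hJ N hNA hN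
    have hDD0 := hDD hzN
    subst hDD0
    have hyord : P.ord y = -((D * Nat.card N : ℕ) : ℤ) := by
      have h1 : (p : ℤ) * P.ord y = (p : ℤ) * -((D * Nat.card N : ℕ) : ℤ) := by
        rw [hord, hxA, hN]
        push_cast
        ring
      exact mul_left_cancel₀ (by exact_mod_cast hp.ne_zero) h1
    have hsm : ∀ g' ∈ A, g' ∉ N → sm b {x | g'⁻¹ * x ∈ N} = Nat.card N * (D : ℤ) := by
      intro g' hg' hg'N
      obtain ⟨c, hc0, hc⟩ := hyc g' hg' hg'N
      refine hHBX p k L G P ρ N A g' y c D hp hchar hρ hNA (fun a _ => hr1 a) ?_ hg' hg'N hy hy0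
        hc0 hc hyord hpD hD
      intro a ha m hm
      have h2 := hEA.2 a ha m (hNA hm)
      rw [h2, mul_inv_cancel_right]
      exact hm
    have hcmb := hCMB p G b N A (D : ℤ) lA hp hUMA hNA hN hsm hlA
    have := hcmb.2 ⟨g, hg, hgN, hgl⟩
    rw [this]
    push_cast
    rfl
  -- `b = 1` outside `A`
  have hout : ∀ g : G, g ∉ A → b g = 1 := by
    intro g hgA
    have hιg : ι g ≠ 0 := fun h => hgA ((hιker g).1 h)
    have hsum := hHBX p k L G P ρ A ⊤ g x (ι g) 1 hp hchar hρ le_top (fun a _ => hr1 a)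
      (fun a _ m hm => hnorm a m hm) (Subgroup.mem_top g) hgA hAx hx0 hιg (hρx g)
      (by rw [hxA, one_mul]) (fun h => hp.one_lt.ne' (Nat.dvd_one.1 h)) le_rfl
    have hpos : ∀ a ∈ (univ : Finset G).filter (fun a => a ∈ {x | g⁻¹ * x ∈ A}), 1 ≤ b a := by
      intro a ha
      simp only [mem_filter, mem_univ, true_and, Set.mem_ofPred_eq] at ha
      refine hUM.pos a (Subgroup.mem_top a) ?_
      rintro rfl
      rw [mul_one] at ha
      exact hgA (by simpa using A.inv_mem ha)
    have hcardf : ((univ : Finset G).filter (fun a => a ∈ {x | g⁻¹ * x ∈ A})).card =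
        Nat.card A := by
      rw [Nat.card_eq_fintype_card, Fintype.card_subtype]
      refine Finset.card_bij (fun a _ => g⁻¹ * a) ?_ ?_ ?_
      · intro a ha
        simpa using ha
      · intro a _ a' _ h
        exact mul_left_cancel h
      · intro a ha
        refine ⟨g * a, ?_, by simp⟩
        simpa using ha
    have hsum' : ∑ a ∈ (univ : Finset G).filter (fun a => a ∈ {x | g⁻¹ * x ∈ A}), b a =
        ∑ a ∈ (univ : Finset G).filter (fun a => a ∈ {x | g⁻¹ * x ∈ A}), 1 := by
      rw [Finset.sum_const, hcardf]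
      unfold sm at hsum
      simp only [nsmul_eq_mul, mul_one]
      rw [Nat.cast_one, mul_one] at hsum
      rw [← hsum]
    have h1 := (Finset.sum_eq_sum_iff_of_le (fun a ha => hpos a ha)).1 hsum'.symm g (by
      simp only [mem_filter, mem_univ, true_and, Set.mem_ofPred_eq]
      rw [inv_mul_cancel]
      exact A.one_mem)
    exact h1.symm
  have hlG : IsLst b ⊤ lA := by
    obtain ⟨g, hg, hg1, hgl⟩ := hlA.mem
    refine ⟨⟨g, Subgroup.mem_top g, hg1, hgl⟩, fun g' _ hg'1 => ?_⟩
    by_cases hg' : g' ∈ A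
    · exact hlA.le g' hg' hg'1
    · rw [hout g' hg', ← hgl]
      exact hUMA.pos g hg hg1
  have hUG : U b ⊤ lA = ((D0 : ℚ) + (p ^ d - 1)) / p ^ d := by
    have hpd : (p : ℚ) ^ d ≠ 0 := pow_ne_zero d (by exact_mod_cast hp.ne_zero)
    have hcA : (Nat.card A : ℚ) ≠ 0 := by exact_mod_cast hApos.ne'
    unfold U at hUA ⊢
    rw [div_eq_iff hcA] at hUA
    rw [xdc_sm A hout, Subgroup.card_top, hcard]
    push_cast
    rw [div_eq_div_iff (mul_ne_zero hpd hcA) hpd]
    have : (lA : ℚ) + (sm b {g | g ∈ A ∧ g ≠ 1} : ℚ) = D0 * Nat.card A := hUA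
    linear_combination (p : ℚ) ^ d * this
  have hcnv := hCNV k L G P ρ ⊤ ⊤ lA hρ hW1 hW0 hlG
  have hcG : (Nat.card (⊤ : Subgroup G) : ℚ) ≠ 0 := by
    have : 0 < Nat.card (⊤ : Subgroup G) := Nat.card_pos
    exact_mod_cast this.ne'
  rw [← hUG]
  rwa [mul_comm, mul_div_assoc, div_self hcG, mul_one] at hcnv

end Pool.CND
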