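import Pool.Agent.H37.CNX.Stmts

/-!
# Row XEF: `N_G = p ^ h` for the extraspecial `p`-groups, `p` odd
-/

set_option autoImplicit false

namespace Pool.CND

theorem xef_thm (hXFI : S_XFI) (hXES : S_XES) : S_XEF := by
  intro p h k G _ _ _ _ hp hchar hp2 hh hcard hZ hpow hcomm
  obtain ⟨M, z, hM⟩ := hXES p h G hp hp2 hh hcard hZ hpow hcomm
  exact hXFI p h k G M z hp hchar hp2 hh hM

end Pool.CND
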